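import Pool.Agent.MP_640286_co.H32.Bound

set_option autoImplicit false
open Classical

namespace Pool.Agent.MP_640286_co.H32

theorem beta_le (n : ℕ) (H : SimpleGraph (Fin (n+2))) (lam : ℝ) (hl : 0 ≤ lam)
    (f : Equiv.Perm (Fin (n+2)))
    (hf : ∀ k : Fin (n+2), (H.induce {v | f.symm v ≤ k}).Connected)
    (hcert : ∃ t : Fin (n+2) → ℝ, (∀ a, 0 < t a) ∧
      (∑ b, (if ((0 : Fin (n+2)) < b ∧ H.Adj (f 0) (f b)) then t b else 0) ≤ lam) ∧
      (∀ a, a ≠ 0 →
        1 / t a + ∑ b, (if (a < b ∧ H.Adj (f a) (f b)) then t b else 0) ≤ lam))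
    (P : Finset (Finset (Fin (n+2))))
    (hP' : ∀ S, S ∈ P ↔ (0 : Fin (n+2)) ∈ S ∧
      ∀ a ∈ S, ∀ b ∈ S, a < b → (∀ c ∈ S, ¬ (a < c ∧ c < b)) → H.Adj (f a) (f b))
    (C : Finset (Fin (n+2)) → Finset (Fin (n+2)) → Prop) (dec : ∀ S T, Decidable (C S T))
    (hC : ∀ S T, C S T ↔ (Child S T ∨ Child T S)) :
    1 - ((sSup {q : ℝ | ∃ x : Finset (Fin (n+2)) → ℝ,
        (∑ S ∈ P, x S ^ 2) = 1 ∧
        q = ∑ S ∈ P, ∑ T ∈ P, (@ite ℝ (C S T) (dec S T) (x S * x T) 0)}) ^ 2)⁻¹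
      ≤ 1 - (lam ^ 2)⁻¹ := by
  obtain ⟨t, ht, h0, h1⟩ := hcert
  have hite : ∀ (x : Finset (Fin (n+2)) → ℝ) S T, (@ite ℝ (C S T) (dec S T) (x S * x T) 0)
      = (if (Child S T ∨ Child T S) then x S * x T else 0) := by
    intro x S T
    by_cases h : C S T
    · rw [if_pos h, if_pos ((hC S T).1 h)]
    · rw [if_neg h, if_neg (fun h' => h ((hC S T).2 h'))]
  simp only [hite]
  set Q : Set ℝ := {q : ℝ | ∃ x : Finset (Fin (n+2)) → ℝ,
        (∑ S ∈ P, x S ^ 2) = 1 ∧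
        q = ∑ S ∈ P, ∑ T ∈ P, (if (Child S T ∨ Child T S) then x S * x T else 0)} with hQ
  have hub : ∀ q ∈ Q, q ≤ lam := by
    rintro q ⟨x, hx, rfl⟩
    have := quad_le (fun a b => H.Adj (f a) (f b)) t lam ht
      (by convert h0) (by intro a ha; convert h1 a ha) P (fun S hS => (hP' S).1 hS) x
    rw [hx, mul_one] at this
    exact this
  have h01 : H.Adj (f 0) (f 1) := by
    obtain ⟨u, hu1, hu2⟩ := earlier_nbr H f hf (f 1) (by simp)
    have : f.symm u = 0 := by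
      rw [Equiv.symm_apply_apply, Fin.lt_def] at hu2
      apply Fin.ext
      have : ((1 : Fin (n+2)) : ℕ) = 1 := rfl
      have : ((0 : Fin (n+2)) : ℕ) = 0 := rfl
      omega
    rw [Equiv.symm_apply_eq] at this
    rw [← this]; exact hu1
  have m0 : ({0} : Finset (Fin (n+2))) ∈ P := by
    rw [hP']
    refine ⟨by simp, ?_⟩
    intro a ha b hb hab
    rw [Finset.mem_singleton] at ha hb
    rw [ha, hb] at hab
    exact absurd hab (lt_irrefl _)
  have m1 : ({1, 0} : Finset (Fin (n+2))) ∈ P := by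
    rw [hP']
    refine ⟨by simp, ?_⟩
    intro a ha b hb hab _
    simp only [Finset.mem_insert, Finset.mem_singleton] at ha hb
    rcases ha with rfl | rfl <;> rcases hb with rfl | rfl
    · exact absurd hab (lt_irrefl _)
    · exact absurd hab (not_lt.2 (Fin.zero_le _))
    · exact h01
    · exact absurd hab (lt_irrefl _)
  have hne : ({0} : Finset (Fin (n+2))) ≠ {1, 0} := by
    intro h
    have : (1 : Fin (n+2)) ∈ ({0} : Finset (Fin (n+2))) := by rw [h]; simp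
    simp at this
  have hch : Child ({0} : Finset (Fin (n+2))) {1, 0} := ⟨1, by simp, by simp, rfl⟩
  set x : Finset (Fin (n+2)) → ℝ :=
    fun S => if S = {0} then 3 / 5 else if S = {1, 0} then 4 / 5 else 0 with hx
  have x0 : x {0} = 3 / 5 := by simp [hx]
  have x1 : x {1, 0} = 4 / 5 := by simp only [hx]; rw [if_neg hne.symm, if_pos trivial]
  have xnn : ∀ S, 0 ≤ x S := by
    intro S
    simp only [hx]
    split_ifs <;> norm_num
  have hxs : ∑ S ∈ P, x S ^ 2 = 1 := by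
    rw [← Finset.sum_subset (s₁ := {{0}, {1, 0}})]
    · rw [Finset.sum_pair hne, x0, x1]; norm_num
    · intro S hS
      rcases Finset.mem_insert.1 hS with rfl | hS
      · exact m0
      · rw [Finset.mem_singleton.1 hS]; exact m1
    · intro S _ hS
      simp only [Finset.mem_insert, Finset.mem_singleton, not_or] at hS
      simp [hx, hS.1, hS.2]
  have hnn : ∀ S T, 0 ≤ (if (Child S T ∨ Child T S) then x S * x T else 0) := by
    intro S T
    split_ifs
    · exact mul_nonneg (xnn S) (xnn T)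
    · exact le_rfl
  have hpos : 0 < ∑ S ∈ P, ∑ T ∈ P, (if (Child S T ∨ Child T S) then x S * x T else 0) := by
    apply Finset.sum_pos'
    · intro S _
      exact Finset.sum_nonneg (fun T _ => hnn S T)
    · refine ⟨{0}, m0, ?_⟩
      apply Finset.sum_pos'
      · intro T _
        exact hnn _ T
      · refine ⟨{1, 0}, m1, ?_⟩
        rw [if_pos (Or.inl hch), x0, x1]; norm_num
  have hs1 : sSup Q ≤ lam := Real.sSup_le hub hl
  have hs0 : 0 < sSup Q := hpos.trans_le (le_csSup ⟨_, hub⟩ ⟨x, hxs, rfl⟩)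
  have : (lam ^ 2)⁻¹ ≤ ((sSup Q) ^ 2)⁻¹ :=
    inv_anti₀ (pow_pos hs0 2) (pow_le_pow_left₀ hs0.le hs1 2)
  linarith

theorem sup_le (n : ℕ) (H : SimpleGraph (Fin (n+2))) (lam : ℝ) (hl : 1 ≤ lam)
    (hcert : ∀ f : Equiv.Perm (Fin (n+2)),
      (∀ k : Fin (n+2), (H.induce {v | f.symm v ≤ k}).Connected) →
      ∃ t : Fin (n+2) → ℝ, (∀ a, 0 < t a) ∧
      (∑ b, (if ((0 : Fin (n+2)) < b ∧ H.Adj (f 0) (f b)) then t b else 0) ≤ lam) ∧
      (∀ a, a ≠ 0 →
        1 / t a + ∑ b, (if (a < b ∧ H.Adj (f a) (f b)) then t b else 0) ≤ lam)) :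
    sSup {β : ℝ | ∃ f : Equiv.Perm (Fin (n+2)),
        (∀ k : Fin (n+2), (H.induce {v | f.symm v ≤ k}).Connected) ∧
        ∃ P : Finset (Finset (Fin (n+2))),
          P = Finset.univ.filter (fun S : Finset (Fin (n+2)) => (0 : Fin (n+2)) ∈ S ∧
                ∀ a ∈ S, ∀ b ∈ S, a < b → (∀ c ∈ S, ¬ (a < c ∧ c < b)) → H.Adj (f a) (f b)) ∧
          β = 1 - ((sSup {q : ℝ | ∃ x : Finset (Fin (n+2)) → ℝ,
                (∑ S ∈ P, x S ^ 2) = 1 ∧
                q = ∑ S ∈ P, ∑ T ∈ P,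
                  (if ((∃ m : Fin (n+2), m ∉ S ∧ (∀ a ∈ S, a < m) ∧ T = insert m S) ∨
                       (∃ m : Fin (n+2), m ∉ T ∧ (∀ a ∈ T, a < m) ∧ S = insert m T))
                   then x S * x T else 0)}) ^ 2)⁻¹} ≤ 1 - (lam ^ 2)⁻¹ := by
  apply Real.sSup_le
  · rintro β ⟨f, hf, P, hP, hβ⟩
    rw [hβ]
    refine beta_le n H lam (by linarith) f hf (hcert f hf) P ?_ _ _ (fun S T => Iff.rfl)
    intro S
    rw [hP, Finset.mem_filter]
    exact ⟨fun h => h.2, fun h => ⟨Finset.mem_univ _, h⟩⟩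
  · have : (lam ^ 2)⁻¹ ≤ 1 := inv_le_one_of_one_le₀ (one_le_pow₀ hl)
    linarith

end Pool.Agent.MP_640286_co.H32
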