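import Pool.Agent.MP_640286_co.H32.Graph

set_option autoImplicit false
open Classical

namespace Pool.Agent.MP_640286_co.H32

/-- cluster of a vertex of the blow-up: four clusters of size 16, one of size 2, forty of size 1 -/
def cl (x : ℕ) : ℕ := bif Nat.ble x 63 then x % 4 + 1 else bif Nat.ble x 65 then 0 else x - 61

/-- the deleted pairs -/
def miss (x y : ℕ) : Bool :=
  (Nat.ble 66 x && Nat.beq (y + 66) x) ||
    (Nat.ble 40 y && Nat.ble y 47 && Nat.beq x (64 + (y % 4) / 2)) ||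
    (Nat.ble 48 x && Nat.ble x 63 && Nat.ble 48 y && Nat.ble y 63)

def gadj (x y : ℕ) : Bool := hadj (cl x) (cl y) && (!miss x y && !miss y x)

theorem cl_lt : ∀ x : Fin 106, cl x < 45 := by decide +kernel

def proj (x : Fin 106) : Fin 45 := ⟨cl x, cl_lt x⟩

def G : SimpleGraph (Fin 106) where
  Adj x y := gadj x y = true
  symm := ⟨fun x y h => by
    unfold gadj at h ⊢
    rw [hadj_comm, Bool.and_comm (!miss y x)]
    exact h⟩
  loopless := ⟨by decide +kernel⟩

theorem proj_surj : Function.Surjective proj := by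
  have : ∀ i : Fin 45, ∃ x : Fin 106, cl x = i.val := by decide +kernel
  intro i
  obtain ⟨x, hx⟩ := this i
  exact ⟨x, Fin.ext hx⟩

theorem G_hom (x y : Fin 106) (h : G.Adj x y) : H.Adj (proj x) (proj y) := by
  have h' : gadj x y = true := h
  unfold gadj at h'
  rw [Bool.and_eq_true] at h'
  exact h'.1

def cnt1 (i : ℕ) : ℕ := ((List.range 106).map fun x => bif Nat.beq (cl x) i then 1 else 0).sum

def cnt2 (i j : ℕ) : ℕ :=
  ((List.range 106).map fun x => bif Nat.beq (cl x) i then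
    ((List.range 106).map fun y => bif Nat.beq (cl y) j && gadj x y then 1 else 0).sum
    else 0).sum

theorem cnt_check : ∀ i j : Fin 45, hadj i j = true →
    16 * cnt2 i j = 15 * (cnt1 i * cnt1 j) := by
  decide +kernel

theorem cnt_pos : ∀ i : Fin 45, 0 < cnt1 i := by
  decide +kernel

theorem sum_fin (F : ℕ → ℕ) : ∑ x : Fin 106, F x = ((List.range 106).map F).sum := by
  rw [Fin.sum_univ_eq_sum_range F 106]
  rfl

theorem card1 (i : Fin 45) : Nat.card {x : Fin 106 // proj x = i} = cnt1 i := by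
  rw [Nat.card_eq_fintype_card, Fintype.card_subtype, Finset.card_filter, cnt1, ← sum_fin]
  apply Finset.sum_congr rfl
  intro x _
  by_cases h : cl x = i.val
  · rw [if_pos (Fin.ext h), Nat.beq_eq.mpr h]; rfl
  · rw [if_neg (fun h' => h (congrArg Fin.val h'))]
    have : Nat.beq (cl x) i.val = false := by rw [← Bool.not_eq_true, Nat.beq_eq]; exact h
    rw [this]; rfl

theorem card2 (i j : Fin 45) :
    Nat.card {p : Fin 106 × Fin 106 // proj p.1 = i ∧ proj p.2 = j ∧ G.Adj p.1 p.2}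
      = cnt2 i j := by
  rw [Nat.card_eq_fintype_card, Fintype.card_subtype, Finset.card_filter, cnt2, ← sum_fin,
    Fintype.sum_prod_type]
  apply Finset.sum_congr rfl
  intro x _
  by_cases h : cl x = i.val
  · rw [Nat.beq_eq.mpr h, cond_true, ← sum_fin]
    apply Finset.sum_congr rfl
    intro y _
    by_cases h2 : cl y = j.val ∧ gadj x y = true
    · rw [if_pos ⟨Fin.ext h, Fin.ext h2.1, h2.2⟩, Nat.beq_eq.mpr h2.1, h2.2]; rfl
    · rw [if_neg (fun h' => h2 ⟨congrArg Fin.val h'.2.1, h'.2.2⟩)]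
      have : (Nat.beq (cl y) j.val && gadj x y) = false := by
        rw [← Bool.not_eq_true, Bool.and_eq_true, Nat.beq_eq]; exact h2
      rw [this]; rfl
  · have : Nat.beq (cl x) i.val = false := by rw [← Bool.not_eq_true, Nat.beq_eq]; exact h
    rw [this, cond_false]
    apply Finset.sum_eq_zero
    intro y _
    rw [if_neg (fun h' => h (congrArg Fin.val h'.1))]

theorem density (i j : Fin 45) (h : H.Adj i j) :
    (Nat.card {p : Fin 106 × Fin 106 // proj p.1 = i ∧ proj p.2 = j ∧ G.Adj p.1 p.2} : ℝ) /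
      ((Nat.card {x : Fin 106 // proj x = i} : ℝ) * (Nat.card {x : Fin 106 // proj x = j} : ℝ))
      = 15 / 16 := by
  rw [card1, card1, card2]
  have h1 : (16 : ℝ) * cnt2 i j = 15 * (cnt1 i * cnt1 j) := by exact_mod_cast cnt_check i j h
  have h2 : (0 : ℝ) < cnt1 i := by exact_mod_cast cnt_pos i
  have h3 : (0 : ℝ) < cnt1 j := by exact_mod_cast cnt_pos j
  rw [div_eq_iff (mul_pos h2 h3).ne']
  linarith

theorem L0 : ∀ y : Fin 106, y.val < 40 → hadj (cl y) (y.val + 5) = true ∧
    ∀ x : Fin 106, cl x = y.val + 5 → gadj y x = false := by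
  decide +kernel

theorem L1 : ∀ x : Fin 106, cl x = 0 → x.val = 64 ∨ x.val = 65 := by decide +kernel

theorem L2 : ∀ y : Fin 106, 40 ≤ y.val → (cl y = 1 ∨ cl y = 2) → gadj 64 y = true →
    48 ≤ y.val ∧ y.val < 64 := by decide +kernel

theorem L2' : ∀ y : Fin 106, 40 ≤ y.val → (cl y = 3 ∨ cl y = 4) → gadj 65 y = true →
    48 ≤ y.val ∧ y.val < 64 := by decide +kernel

theorem L3 : ∀ y : Fin 106, 48 ≤ y.val ∧ y.val < 64 → ∀ z : Fin 106, 48 ≤ z.val ∧ z.val < 64 →
    gadj y z = false := by decide +kernel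

theorem no_transversal :
    ¬ ∃ a : Fin 45 → Fin 106, (∀ i, proj (a i) = i) ∧ ∀ i j, H.Adj i j → G.Adj (a i) (a j) := by
  rintro ⟨a, h1, h2⟩
  have hc : ∀ i, cl (a i) = i.val := fun i => congrArg Fin.val (h1 i)
  have h2' : ∀ i j : Fin 45, hadj i j = true → gadj (a i) (a j) = true := h2
  have big : ∀ i, 40 ≤ (a i).val := by
    intro i
    by_contra h
    have h := not_le.1 h
    obtain ⟨e1, e2⟩ := L0 (a i) h
    have e3 := e2 (a ⟨(a i).val + 5, by omega⟩) (hc _)
    rw [hc] at e1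
    rw [h2' i ⟨(a i).val + 5, by omega⟩ e1] at e3
    exact absurd e3 (by simp)
  rcases L1 (a 0) (hc 0) with h | h
  · have e1 := L2 (a 1) (big 1) (Or.inl (hc 1)) (h ▸ h2' 0 1 (by decide))
    have e2 := L2 (a 2) (big 2) (Or.inr (hc 2)) (h ▸ h2' 0 2 (by decide))
    have e3 := L3 _ e1 _ e2
    rw [h2' 1 2 (by decide)] at e3
    exact absurd e3 (by simp)
  · have e1 := L2' (a 3) (big 3) (Or.inl (hc 3)) (h ▸ h2' 0 3 (by decide))
    have e2 := L2' (a 4) (big 4) (Or.inr (hc 4)) (h ▸ h2' 0 4 (by decide))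
    have e3 := L3 _ e1 _ e2
    rw [h2' 3 4 (by decide)] at e3
    exact absurd e3 (by simp)

end Pool.Agent.MP_640286_co.H32
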