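import Mathlib

set_option autoImplicit false

namespace Pool.Agent.MP_640286_co.H32

/-- one direction of the edges: `0` is the centre of the bow-tie, `1,2` and `3,4` are the two
other edges of its triangles, and each `v ≥ 5` is a leaf hanging at `(v-1) % 4 + 1`. -/
def rel (u v : ℕ) : Bool :=
  (Nat.beq u 0 && (Nat.ble 1 v && Nat.ble v 4)) || (Nat.beq u 1 && Nat.beq v 2) ||
    (Nat.beq u 3 && Nat.beq v 4) || (Nat.ble 5 v && Nat.beq u ((v - 1) % 4 + 1))

def hadj (u v : ℕ) : Bool := rel u v || rel v u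

theorem hadj_comm (u v : ℕ) : hadj u v = hadj v u := by simp [hadj, Bool.or_comm]

/-- The bow-tie with ten leaves at each of its four non-central vertices. -/
def H : SimpleGraph (Fin 45) where
  Adj u v := hadj u v = true
  symm := ⟨fun u v h => by rwa [hadj_comm]⟩
  loopless := ⟨by decide +kernel⟩

instance : DecidableRel H.Adj := fun u v => inferInstanceAs (Decidable (hadj u v = true))

theorem H_near : ∀ v : Fin 45, v = 0 ∨ H.Adj 0 v ∨ ∃ u, H.Adj 0 u ∧ H.Adj u v := by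
  decide +kernel

theorem H_connected : H.Connected := by
  rw [SimpleGraph.connected_iff_exists_forall_reachable]
  refine ⟨0, fun v => ?_⟩
  rcases H_near v with rfl | h | ⟨u, h1, h2⟩
  · rfl
  · exact h.reachable
  · exact h1.reachable.trans h2.reachable

/-- the orientation read off from the root and the order on the six core edges -/
def D (r : ℕ) (p1 p2 p12 p3 p4 p34 : Bool) (u v : ℕ) : Bool :=
  bif Nat.ble 5 v then !(Nat.beq v r)
  else bif Nat.ble 5 u then Nat.beq u r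
  else match u, v with
    | 0, 1 => p1 | 1, 0 => !p1 | 0, 2 => p2 | 2, 0 => !p2 | 1, 2 => p12 | 2, 1 => !p12
    | 0, 3 => p3 | 3, 0 => !p3 | 0, 4 => p4 | 4, 0 => !p4 | 3, 4 => p34 | 4, 3 => !p34
    | _, _ => false

def ta (cx xy : Bool) : ℕ :=
  bif cx then (bif xy then 12050 else 6680) else (bif xy then 39990 else 9740)

/-- certificate, scaled by `10000` -/
def T (p1 p2 p12 p3 p4 p34 : Bool) (v : ℕ) : ℕ :=
  bif Nat.ble 5 v then 2501 else match v with
    | 0 => bif (!p1 && !p2) || (!p3 && !p4) then 4710 else 6860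
    | 1 => ta p1 p12
    | 2 => ta p2 (!p12)
    | 3 => ta p3 p34
    | _ => ta p4 (!p34)

/-- neighbour lists -/
def nbr (v : ℕ) : List ℕ :=
  bif Nat.ble 5 v then [(v - 1) % 4 + 1] else match v with
    | 0 => [1, 2, 3, 4]
    | 1 => [0, 2, 5, 9, 13, 17, 21, 25, 29, 33, 37, 41]
    | 2 => [0, 1, 6, 10, 14, 18, 22, 26, 30, 34, 38, 42]
    | 3 => [0, 4, 7, 11, 15, 19, 23, 27, 31, 35, 39, 43]
    | _ => [0, 3, 8, 12, 16, 20, 24, 28, 32, 36, 40, 44]

theorem nbr_eq : ∀ v : Fin 45, (List.range 45).filter (hadj v) = nbr v := by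
  decide +kernel

def load (r : ℕ) (p1 p2 p12 p3 p4 p34 : Bool) (v : ℕ) : ℕ :=
  ((nbr v).map fun b => bif D r p1 p2 p12 p3 p4 p34 v b then T p1 p2 p12 p3 p4 p34 b else 0).sum

theorem T_pos : ∀ (p1 p2 p12 p3 p4 p34 : Bool) (v : Fin 45), 0 < T p1 p2 p12 p3 p4 p34 v := by
  decide +kernel

def okv (isr : Bool) (t l : ℕ) : Bool :=
  Nat.ble l 39990 && (isr || Nat.ble 100000000 (t * (39990 - l)))

def certB (p1 p2 p12 p3 p4 p34 : Bool) (r : ℕ) : Bool :=
  !((List.range 5).all fun v => Nat.beq v r ||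
      (nbr v).any fun u => D r p1 p2 p12 p3 p4 p34 u v) ||
    (List.range 45).all fun v =>
      okv (Nat.beq v r) (T p1 p2 p12 p3 p4 p34 v) (load r p1 p2 p12 p3 p4 p34 v)

theorem cert0 : ∀ (p1 p2 p12 p3 p4 p34 : Bool),
    (((p1 && p12 && !p2) || (!p1 && !p12 && p2) || (p3 && p34 && !p4) || (!p3 && !p34 && p4)) ||
      (List.range 45).all fun r => certB p1 p2 p12 p3 p4 p34 r) = true := by
  decide +kernel

theorem leaf_unique : ∀ u v : Fin 45, 5 ≤ v.val → H.Adj u v → u.val = (v.val - 1) % 4 + 1 := by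
  decide +kernel

theorem core_cases : ∀ u v : Fin 45, u.val < 5 → v.val < 5 → H.Adj u v →
    (u = 0 ∧ v = 1) ∨ (u = 1 ∧ v = 0) ∨ (u = 0 ∧ v = 2) ∨ (u = 2 ∧ v = 0) ∨
    (u = 1 ∧ v = 2) ∨ (u = 2 ∧ v = 1) ∨ (u = 0 ∧ v = 3) ∨ (u = 3 ∧ v = 0) ∨
    (u = 0 ∧ v = 4) ∨ (u = 4 ∧ v = 0) ∨ (u = 3 ∧ v = 4) ∨ (u = 4 ∧ v = 3) := by
  decide +kernel

end Pool.Agent.MP_640286_co.H32
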