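import Pool.Agent.MP_640286_co.H32.Spec
import Pool.Agent.MP_640286_co.H32.Graph

set_option autoImplicit false
open Classical

namespace Pool.Agent.MP_640286_co.H32

theorem exists_adj_of_reach {V : Type} (G : SimpleGraph V) (a b : V) (h : G.Reachable a b)
    (hne : a ≠ b) : ∃ c, G.Adj a c := by
  obtain ⟨p⟩ := h
  cases p with
  | nil => exact absurd rfl hne
  | cons h _ => exact ⟨_, h⟩

theorem earlier_nbr {N : ℕ} [NeZero N] (G : SimpleGraph (Fin N)) (f : Equiv.Perm (Fin N))
    (hf : ∀ k : Fin N, (G.induce {v | f.symm v ≤ k}).Connected) (v : Fin N)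
    (hv : f.symm v ≠ 0) : ∃ u, G.Adj u v ∧ f.symm u < f.symm v := by
  have hc := (hf (f.symm v)).preconnected ⟨v, le_refl (f.symm v)⟩ ⟨f 0, by simp⟩
  obtain ⟨⟨c, hc1⟩, hc2⟩ := exists_adj_of_reach _ _ _ hc (by
    intro h
    apply hv
    have : v = f 0 := congrArg Subtype.val h
    rw [this]; simp)
  have hadj' : G.Adj v c := hc2
  refine ⟨c, hadj'.symm, lt_of_le_of_ne hc1 ?_⟩
  intro h
  exact hadj'.ne (f.symm.injective h).symm

theorem list_sum_filter (l : List ℕ) (p : ℕ → Bool) (F : ℕ → ℕ) :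
    (l.map fun b => if p b = true then F b else 0).sum = ((l.filter p).map F).sum := by
  induction l with
  | nil => rfl
  | cons a l ih =>
    by_cases h : p a = true <;> simp [h, ih]

theorem sum_adj (v : Fin 45) (F : ℕ → ℕ) :
    ∑ w : Fin 45, (if hadj v w = true then F w else 0) = ((nbr v).map F).sum := by
  rw [Fin.sum_univ_eq_sum_range (fun w => if hadj v w = true then F w else 0) 45, ← nbr_eq,
    ← list_sum_filter]
  rfl

theorem mem_nbr {u v : Fin 45} (h : H.Adj u v) : u.val ∈ nbr v := by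
  rw [← nbr_eq, List.mem_filter]
  exact ⟨List.mem_range.2 u.2, h.symm⟩

theorem exists_cert (f : Equiv.Perm (Fin 45))
    (hf : ∀ k : Fin 45, (H.induce {v | f.symm v ≤ k}).Connected) :
    ∃ t : Fin 45 → ℝ, (∀ a, 0 < t a) ∧
      (∑ b, (if ((0 : Fin 45) < b ∧ H.Adj (f 0) (f b)) then t b else 0) ≤ 3999 / 1000) ∧
      (∀ a, a ≠ 0 →
        1 / t a + ∑ b, (if (a < b ∧ H.Adj (f a) (f b)) then t b else 0) ≤ 3999 / 1000) := by
  set p1 := decide (f.symm 0 < f.symm 1) with hp1
  set p2 := decide (f.symm 0 < f.symm 2) with hp2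
  set p12 := decide (f.symm 1 < f.symm 2) with hp12
  set p3 := decide (f.symm 0 < f.symm 3) with hp3
  set p4 := decide (f.symm 0 < f.symm 4) with hp4
  set p34 := decide (f.symm 3 < f.symm 4) with hp34
  set r : ℕ := (f 0).val with hr
  have hroot : ∀ v : Fin 45, v.val = r ↔ f.symm v = 0 := by
    intro v
    rw [hr, Fin.val_inj, Equiv.symm_apply_eq]
  have D_of : ∀ u v : Fin 45, H.Adj u v → f.symm u < f.symm v →
      D r p1 p2 p12 p3 p4 p34 u v = true := by
    intro u v huv hlt
    by_cases hv : 5 ≤ v.val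
    · have : v.val ≠ r := by
        intro h
        rw [(hroot v).1 h] at hlt
        exact absurd hlt (not_lt.2 (Fin.zero_le _))
      have hb : Nat.beq v.val r = false := by
        rw [← Bool.not_eq_true, Nat.beq_eq]; exact this
      unfold D
      rw [Nat.ble_eq_true_of_le hv, hb]
      rfl
    · by_cases hu : 5 ≤ u.val
      · have : u.val = r := by
          by_contra h
          obtain ⟨w, hw1, hw2⟩ := earlier_nbr H f hf u (fun h' => h ((hroot u).2 h'))
          have e1 := leaf_unique w u hu hw1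
          have e2 := leaf_unique v u hu huv.symm
          have : w = v := Fin.ext (e1.trans e2.symm)
          rw [this] at hw2
          exact lt_asymm hlt hw2
        have hv' : Nat.ble 5 v.val = false := by
          rw [← Bool.not_eq_true, Nat.ble_eq]; exact hv
        have hb : Nat.beq u.val r = true := by
          rw [Nat.beq_eq]; exact this
        unfold D
        rw [Nat.ble_eq_true_of_le hu, hb, hv']
        rfl
      · rcases core_cases u v (not_le.1 hu) (not_le.1 hv) huv with
          ⟨rfl, rfl⟩ | ⟨rfl, rfl⟩ | ⟨rfl, rfl⟩ | ⟨rfl, rfl⟩ | ⟨rfl, rfl⟩ | ⟨rfl, rfl⟩ |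
          ⟨rfl, rfl⟩ | ⟨rfl, rfl⟩ | ⟨rfl, rfl⟩ | ⟨rfl, rfl⟩ | ⟨rfl, rfl⟩ | ⟨rfl, rfl⟩
        · exact decide_eq_true hlt
        · show (!p1) = true
          simp [hp1, hlt.le]
        · exact decide_eq_true hlt
        · show (!p2) = true
          simp [hp2, hlt.le]
        · exact decide_eq_true hlt
        · show (!p12) = true
          simp [hp12, hlt.le]
        · exact decide_eq_true hlt
        · show (!p3) = true
          simp [hp3, hlt.le]
        · exact decide_eq_true hlt
        · show (!p4) = true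
          simp [hp4, hlt.le]
        · exact decide_eq_true hlt
        · show (!p34) = true
          simp [hp34, hlt.le]
  have acyc : ((p1 && p12 && !p2) || (!p1 && !p12 && p2) || (p3 && p34 && !p4) ||
      (!p3 && !p34 && p4)) = false := by
    simp only [hp1, hp2, hp12, hp3, hp4, hp34, Bool.or_eq_false_iff, Bool.and_eq_false_iff,
      decide_eq_false_iff_not, Bool.not_eq_false', decide_eq_true_eq, Fin.lt_def]
    omega
  have c0 := cert0 p1 p2 p12 p3 p4 p34
  rw [acyc, Bool.false_or, List.all_eq_true] at c0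
  have c1 := c0 r (List.mem_range.2 (f 0).2)
  have cons : ((List.range 5).all fun v => Nat.beq v r ||
      (nbr v).any fun u => D r p1 p2 p12 p3 p4 p34 u v) = true := by
    rw [List.all_eq_true]
    intro v hv
    have hv5 := List.mem_range.1 hv
    by_cases h : v = r
    · simp [h]
    · obtain ⟨w, hw1, hw2⟩ := earlier_nbr H f hf ⟨v, by omega⟩
        (fun h' => h ((hroot ⟨v, by omega⟩).2 h'))
      rw [Bool.or_eq_true, List.any_eq_true]
      exact Or.inr ⟨w.val, mem_nbr hw1, D_of _ _ hw1 hw2⟩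
  unfold certB at c1
  rw [cons, Bool.not_true, Bool.false_or, List.all_eq_true] at c1
  have loadb : ∀ a : Fin 45,
      ∑ b, (if (a < b ∧ H.Adj (f a) (f b)) then (T p1 p2 p12 p3 p4 p34 (f b) : ℝ) / 10000 else 0)
        ≤ (load r p1 p2 p12 p3 p4 p34 (f a) : ℝ) / 10000 := by
    intro a
    unfold load
    rw [← sum_adj, Nat.cast_sum, Finset.sum_div]
    conv_rhs => rw [← Equiv.sum_comp f]
    apply Finset.sum_le_sum
    intro b _
    split_ifs with h1 h2 h2
    · rw [D_of (f a) (f b) h1.2 (by simpa using h1.1)]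
      simp
    · exact absurd h1.2 h2
    · positivity
    · simp
  refine ⟨fun a => (T p1 p2 p12 p3 p4 p34 (f a) : ℝ) / 10000, ?_, ?_, ?_⟩
  · intro a
    have : (0 : ℝ) < (T p1 p2 p12 p3 p4 p34 (f a) : ℝ) := by exact_mod_cast T_pos _ _ _ _ _ _ _
    positivity
  · have h := c1 (f 0).val (List.mem_range.2 (f 0).2)
    simp only [okv, Bool.and_eq_true, Nat.ble_eq] at h
    have h' : (load r p1 p2 p12 p3 p4 p34 (f 0) : ℝ) ≤ 39990 := by exact_mod_cast h.1
    refine (loadb 0).trans ?_
    linarith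
  · intro a ha
    have h := c1 (f a).val (List.mem_range.2 (f a).2)
    have hne : (f a).val ≠ r := by
      rw [Ne, hroot]; simpa using ha
    simp only [okv, Bool.and_eq_true, Nat.ble_eq, Bool.or_eq_true, Nat.beq_eq, hne, false_or] at h
    obtain ⟨h1, h2⟩ := h
    have h3 : (100000000 : ℝ) ≤ (T p1 p2 p12 p3 p4 p34 (f a) : ℝ) *
        (39990 - (load r p1 p2 p12 p3 p4 p34 (f a) : ℝ)) := by
      have := (Nat.cast_le (α := ℝ)).2 h2
      rw [Nat.cast_mul, Nat.cast_sub h1] at this
      exact_mod_cast this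
    have hT : (0 : ℝ) < (T p1 p2 p12 p3 p4 p34 (f a) : ℝ) := by exact_mod_cast T_pos _ _ _ _ _ _ _
    have h4 : 1 / ((T p1 p2 p12 p3 p4 p34 (f a) : ℝ) / 10000) ≤
        (39990 - (load r p1 p2 p12 p3 p4 p34 (f a) : ℝ)) / 10000 := by
      rw [div_le_iff₀ (by positivity)]
      nlinarith
    have := loadb a
    beta_reduce
    linarith

end Pool.Agent.MP_640286_co.H32
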