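import Mathlib

set_option autoImplicit false
open Classical

namespace Pool.Agent.MP_640286_co.H32

/-- `T` arises from `S` by adding a new largest element. -/
def Child {N : ℕ} (S T : Finset (Fin N)) : Prop :=
  ∃ m : Fin N, m ∉ S ∧ (∀ a ∈ S, a < m) ∧ T = insert m S

/-- the largest element -/
noncomputable def mx {N : ℕ} [NeZero N] (S : Finset (Fin N)) : Fin N := S.sup id

theorem le_mx {N : ℕ} [NeZero N] {S : Finset (Fin N)} {a : Fin N} (h : a ∈ S) : a ≤ mx S :=
  Finset.le_sup (f := id) h

theorem mx_mem {N : ℕ} [NeZero N] {S : Finset (Fin N)} (h : (0 : Fin N) ∈ S) : mx S ∈ S := by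
  obtain ⟨b, hb, he⟩ := Finset.exists_mem_eq_sup S ⟨0, h⟩ id
  unfold mx
  rw [he]
  exact hb

theorem mx_insert {N : ℕ} [NeZero N] {S : Finset (Fin N)} {m : Fin N} (h : ∀ a ∈ S, a < m) :
    mx (insert m S) = m := by
  apply le_antisymm
  · unfold mx
    apply Finset.sup_le
    intro b hb
    rcases Finset.mem_insert.1 hb with rfl | hb
    · exact le_rfl
    · exact (h b hb).le
  · exact le_mx (Finset.mem_insert_self _ _)

theorem Child.spec {N : ℕ} [NeZero N] {S T : Finset (Fin N)} (h : Child S T) :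
    mx T ∉ S ∧ (∀ a ∈ S, a < mx T) ∧ T = insert (mx T) S := by
  obtain ⟨m, h1, h2, rfl⟩ := h
  rw [mx_insert h2]
  exact ⟨h1, h2, rfl⟩

theorem quad_le {N : ℕ} [NeZero N] (A : Fin N → Fin N → Prop) (t : Fin N → ℝ) (lam : ℝ)
    (ht : ∀ a, 0 < t a)
    (h0 : ∑ b, (if ((0 : Fin N) < b ∧ A 0 b) then t b else 0) ≤ lam)
    (h1 : ∀ a, a ≠ 0 → 1 / t a + ∑ b, (if (a < b ∧ A a b) then t b else 0) ≤ lam)
    (P : Finset (Finset (Fin N)))
    (hP : ∀ S ∈ P, (0 : Fin N) ∈ S ∧
      ∀ a ∈ S, ∀ b ∈ S, a < b → (∀ c ∈ S, ¬ (a < c ∧ c < b)) → A a b)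
    (x : Finset (Fin N) → ℝ) :
    ∑ S ∈ P, ∑ T ∈ P, (if (Child S T ∨ Child T S) then x S * x T else 0)
      ≤ lam * ∑ S ∈ P, x S ^ 2 := by
  set g : Finset (Fin N) → Finset (Fin N) → ℝ :=
    fun S T => (t (mx T) * x S ^ 2 + (1 / t (mx T)) * x T ^ 2) / 2 with hg
  have g0 : ∀ S T, 0 ≤ g S T := by
    intro S T
    have := ht (mx T)
    simp only [hg]
    positivity
  have g1 : ∀ S T, x S * x T ≤ g S T := by
    intro S T
    have h := ht (mx T)
    simp only [hg]
    have : (t (mx T) * x S ^ 2 + (1 / t (mx T)) * x T ^ 2) / 2 - x S * x T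
        = (t (mx T) * x S - x T) ^ 2 / (2 * t (mx T)) := by
      field_simp
      ring
    have h2 : 0 ≤ (t (mx T) * x S - x T) ^ 2 / (2 * t (mx T)) := by positivity
    linarith
  have step1 : ∑ S ∈ P, ∑ T ∈ P, (if (Child S T ∨ Child T S) then x S * x T else 0)
      ≤ ∑ S ∈ P, ∑ T ∈ P, ((if Child S T then g S T else 0) + (if Child T S then g T S else 0)) := by
    apply Finset.sum_le_sum
    intro S _
    apply Finset.sum_le_sum
    intro T _
    have a1 := g0 S T
    have a2 := g0 T S
    have a3 := g1 S T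
    have a4 := g1 T S
    rw [mul_comm] at a4
    by_cases c1 : Child S T <;> by_cases c2 : Child T S <;> simp [c1, c2] <;> linarith
  have step2 : ∑ S ∈ P, ∑ T ∈ P, ((if Child S T then g S T else 0) + (if Child T S then g T S else 0))
      = ∑ S ∈ P, (∑ T ∈ P, (if Child S T then t (mx T) else 0)) * x S ^ 2
        + ∑ T ∈ P, (∑ S ∈ P, (if Child S T then 1 / t (mx T) else 0)) * x T ^ 2 := by
    simp only [Finset.sum_add_distrib]
    rw [Finset.sum_comm (s := P) (t := P) (f := fun S T => if Child T S then g T S else 0)]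
    simp only [Finset.sum_mul]
    rw [Finset.sum_comm (s := P) (t := P)
      (f := fun T S => (if Child S T then 1 / t (mx T) else 0) * x T ^ 2)]
    rw [← Finset.sum_add_distrib, ← Finset.sum_add_distrib]
    apply Finset.sum_congr rfl
    intro S _
    rw [← Finset.sum_add_distrib, ← Finset.sum_add_distrib]
    apply Finset.sum_congr rfl
    intro T _
    by_cases c1 : Child S T
    · simp only [c1, if_true, hg]; ring
    · simp [c1]
  have claim1 : ∀ S ∈ P, ∑ T ∈ P, (if Child S T then t (mx T) else 0)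
      ≤ ∑ b, (if (mx S < b ∧ A (mx S) b) then t b else 0) := by
    intro S hS
    rw [← Finset.sum_filter, ← Finset.sum_filter]
    have hinj : Set.InjOn mx (↑(P.filter (fun T => Child S T)) : Set (Finset (Fin N))) := by
      intro T1 hT1 T2 hT2 he
      simp only [Finset.coe_filter, Set.mem_ofPred_eq] at hT1 hT2
      rw [hT1.2.spec.2.2, hT2.2.spec.2.2, he]
    rw [← Finset.sum_image (f := t) hinj]
    apply Finset.sum_le_sum_of_subset_of_nonneg
    · intro b hb
      simp only [Finset.mem_image, Finset.mem_filter] at hb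
      obtain ⟨T, ⟨hT, hc⟩, rfl⟩ := hb
      obtain ⟨s1, s2, s3⟩ := hc.spec
      have hm := mx_mem (hP S hS).1
      simp only [Finset.mem_filter, Finset.mem_univ, true_and]
      refine ⟨s2 _ hm, ?_⟩
      apply (hP T hT).2
      · rw [s3]; exact Finset.mem_insert_of_mem hm
      · exact mx_mem (hP T hT).1
      · exact s2 _ hm
      · rintro c hc' ⟨c1, c2⟩
        rw [s3] at hc'
        rcases Finset.mem_insert.1 hc' with h | h
        · rw [h] at c2; exact lt_irrefl _ c2
        · exact absurd (le_mx h) (not_le.2 c1)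
    · intro b _ _
      exact (ht b).le
  have claim2 : ∀ T ∈ P, ∑ S ∈ P, (if Child S T then 1 / t (mx T) else 0)
      ≤ (if mx T = 0 then 0 else 1 / t (mx T)) := by
    intro T hT
    rw [← Finset.sum_filter]
    split_ifs with hz
    · apply le_of_eq
      apply Finset.sum_eq_zero
      intro S hS
      simp only [Finset.mem_filter] at hS
      exact absurd (hz ▸ (hP S hS.1).1) hS.2.spec.1
    · have hsub : P.filter (fun S => Child S T) ⊆ {T.erase (mx T)} := by
        intro S hS
        simp only [Finset.mem_filter] at hS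
        obtain ⟨s1, s2, s3⟩ := hS.2.spec
        rw [Finset.mem_singleton]
        conv_rhs => rw [s3]
        rw [mx_insert s2, Finset.erase_insert s1]
      calc ∑ S ∈ P.filter (fun S => Child S T), 1 / t (mx T)
          ≤ ∑ S ∈ {T.erase (mx T)}, 1 / t (mx T) := by
            apply Finset.sum_le_sum_of_subset_of_nonneg hsub
            intro _ _ _
            have := ht (mx T)
            positivity
        _ = 1 / t (mx T) := by simp
  refine step1.trans ?_
  rw [step2, ← Finset.sum_add_distrib, Finset.mul_sum]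
  apply Finset.sum_le_sum
  intro S hS
  rw [← add_mul]
  apply mul_le_mul_of_nonneg_right _ (sq_nonneg _)
  have c1 := claim1 S hS
  have c2 := claim2 S hS
  by_cases hz : mx S = 0
  · rw [if_pos hz] at c2
    rw [hz] at c1
    linarith
  · rw [if_neg hz] at c2
    have := h1 _ hz
    linarith

end Pool.Agent.MP_640286_co.H32
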